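import Mathlib

/-! # MP_056b6b_pr, Q1: no northward drift forces transience

For every `k ≥ 1` the rotor walk on `ℤ²` with the mechanism `N^k, E, S, W` (period `k + 3`; `k = 2` is the
mechanism of the question) has an initial configuration for which every vertex is visited infinitely often. -/

set_option autoImplicit false

namespace Pool.Agent.Results.MP_056b6b_pr.EveryDrift

/-- The exits of one period, for the position `j` of the rotor: `k` times North, then East, South, West. -/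
def exitDir (k : ℕ) (j : ZMod (k + 3)) : ℤ × ℤ :=
  if j.val < k then (0, 1) else if j.val = k then (1, 0) else if j.val = k + 1 then (0, -1) else (-1, 0)

/-- One step: the particle leaves its vertex in the direction indicated by the rotor there, and this rotor
advances by one position. A state is the position of the particle with the positions of all rotors. -/
def step (k : ℕ) (s : (ℤ × ℤ) × (ℤ × ℤ → ZMod (k + 3))) : (ℤ × ℤ) × (ℤ × ℤ → ZMod (k + 3)) :=
  (s.1 + exitDir k (s.2 s.1), Function.update s.2 s.1 (s.2 s.1 + 1))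

abbrev P : Type := ℤ × ℤ

def vec : Fin 4 → P := ![(0, 1), (1, 0), (0, -1), (-1, 0)]

section rotor
variable (T : ℕ)

abbrev Z : Type := ZMod (T + 1 + 3)

def lab (j : Z T) : Fin 4 :=
  if j.val < T + 1 then 0 else if j.val = T + 1 then 1 else if j.val = T + 1 + 1 then 2 else 3

def mult : Fin 4 → ℕ := ![T + 1, 1, 1, 1]

lemma dir_eq (j : Z T) : exitDir (T + 1) j = vec (lab T j) := by
  unfold exitDir lab
  split_ifs <;> rfl

/-- number of exits with label `d` among the first `n` exits, from the position `s` -/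
def K (s : Z T) (d : Fin 4) (n : ℕ) : ℕ := ∑ j ∈ Finset.range n, if lab T (s + (j : ℕ)) = d then 1 else 0

lemma K_zero (s : Z T) (d : Fin 4) : K T s d 0 = 0 := rfl

lemma K_succ (s : Z T) (d : Fin 4) (n : ℕ) :
    K T s d (n + 1) = K T s d n + if lab T (s + (n : ℕ)) = d then 1 else 0 := Finset.sum_range_succ _ _

lemma K_add (s : Z T) (d : Fin 4) (m n : ℕ) :
    K T s d (m + n) = K T s d m + K T (s + (m : ℕ)) d n := by
  unfold K
  rw [Finset.sum_range_add]
  simp only [Nat.cast_add, add_assoc]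

lemma K_mono (s : Z T) (d : Fin 4) {m n : ℕ} (h : m ≤ n) : K T s d m ≤ K T s d n := by
  obtain ⟨c, rfl⟩ := Nat.exists_eq_add_of_le h
  rw [K_add]; omega

lemma val_cast {j : ℕ} (h : j < T + 1 + 3) : ((j : ℕ) : Z T).val = j := ZMod.val_cast_of_lt h

lemma K_N (d : Fin 4) {j : ℕ} (h : j ≤ T + 1) : K T 0 d j = if d = 0 then j else 0 := by
  induction j with
  | zero => simp [K_zero]
  | succ j ih =>
    rw [K_succ, ih (by omega), zero_add]
    have : lab T ((j : ℕ) : Z T) = 0 := by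
      unfold lab; rw [val_cast T (by omega), if_pos (by omega)]
    rw [this]
    by_cases hd : d = 0
    · simp [hd]
    · simp [hd, Ne.symm hd]

lemma K_E (d : Fin 4) : K T ((T + 1 : ℕ) : Z T) d 1 = if d = 1 then 1 else 0 := by
  rw [K_succ, K_zero, Nat.cast_zero, add_zero, zero_add]
  have : lab T ((T + 1 : ℕ) : Z T) = 1 := by
    unfold lab; rw [val_cast T (by omega), if_neg (by omega), if_pos rfl]
  rw [this]; simp only [eq_comm]

lemma K_S (d : Fin 4) : K T ((T + 2 : ℕ) : Z T) d 1 = if d = 2 then 1 else 0 := by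
  rw [K_succ, K_zero, Nat.cast_zero, add_zero, zero_add]
  have : lab T ((T + 2 : ℕ) : Z T) = 2 := by
    unfold lab; rw [val_cast T (by omega), if_neg (by omega), if_neg (by omega), if_pos rfl]
  rw [this]; simp only [eq_comm]

lemma K_W (d : Fin 4) : K T ((T + 3 : ℕ) : Z T) d 1 = if d = 3 then 1 else 0 := by
  rw [K_succ, K_zero, Nat.cast_zero, add_zero, zero_add]
  have : lab T ((T + 3 : ℕ) : Z T) = 3 := by
    unfold lab; rw [val_cast T (by omega), if_neg (by omega), if_neg (by omega), if_neg (by omega)]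
  rw [this]; simp only [eq_comm]

lemma c1 : ((T + 2 : ℕ) : Z T) + ((1 : ℕ) : Z T) = ((T + 3 : ℕ) : Z T) := by
  rw [← Nat.cast_add]

lemma c2 : ((T + 3 : ℕ) : Z T) + ((1 : ℕ) : Z T) = 0 := by
  rw [← Nat.cast_add]
  exact ZMod.natCast_self _

lemma K_WN (d : Fin 4) {j : ℕ} (h : j ≤ T + 1) :
    K T ((T + 3 : ℕ) : Z T) d (1 + j) = (if d = 3 then 1 else 0) + if d = 0 then j else 0 := by
  rw [K_add, K_W, c2, K_N T d h]

lemma K_SWN (d : Fin 4) {j : ℕ} (h : j ≤ T + 1) :
    K T ((T + 2 : ℕ) : Z T) d (1 + (1 + j)) =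
      (if d = 2 then 1 else 0) + ((if d = 3 then 1 else 0) + if d = 0 then j else 0) := by
  rw [K_add, K_S, c1, K_WN T d h]

lemma K_full (s : Z T) (d : Fin 4) : K T s d (T + 1 + 3) = mult T d := by
  have h0 : K T s d (T + 1 + 3) = K T 0 d (T + 1 + 3) := by
    have : ∀ r : Z T, K T r d (T + 1 + 3) = ∑ z : Z T, if lab T z = d then 1 else 0 := by
      intro r
      rw [← Equiv.sum_comp (Equiv.addLeft r) fun z => if lab T z = d then 1 else 0]
      unfold K
      rw [← Fin.sum_univ_eq_sum_range (fun j => if lab T (r + ((j : ℕ) : Z T)) = d then 1 else 0) (T + 1 + 3)]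
      refine Finset.sum_congr rfl fun z _ => ?_
      have : (((z : Fin (T + 1 + 3)) : ℕ) : Z T) = (z : Z T) :=
        ZMod.natCast_zmod_val (n := T + 1 + 3) z
      rw [this]; rfl
    rw [this, this]
  rw [h0]
  have h1 : K T 0 d ((T + 1) + (1 + (1 + 1))) = mult T d := by
    rw [K_add, K_N T d le_rfl, zero_add, K_add, K_E, K_add]
    have e1 : ((T + 1 : ℕ) : Z T) + ((1 : ℕ) : Z T) = ((T + 2 : ℕ) : Z T) := by rw [← Nat.cast_add]
    rw [e1, K_S, c1, K_W]
    fin_cases d <;> simp [mult]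
  exact h1

lemma K_period (s : Z T) (d : Fin 4) (n : ℕ) : K T s d (n + (T + 1 + 3)) = K T s d n + mult T d := by
  rw [K_add, K_full]

end rotor

section flux
variable (T : ℕ) (a : ℤ)

/-- the integer `z` cut off to `[0, T]` -/
def cl (z : ℤ) : ℕ := (min (T : ℤ) z).toNat

def eN (x y : ℤ) : ℕ :=
  if -a ≤ x ∧ x ≤ a then
    (if -a - 1 ≤ y ∧ y ≤ a then T + 1
    else if a + 1 ≤ y then cl T (T * (a - x) + T - (y - a))
    else cl T (T * (x + a) + T - (-a - 1 - y)))
  else 0
def eE (x y : ℤ) : ℕ :=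
  if (-a - 1 ≤ x ∧ x ≤ a ∧ -a ≤ y ∧ y ≤ a) ∨
    (y ≤ -a - 1 ∧ -a - 1 - y < T * (2 * a + 1) ∧ y - 1 ≤ x ∧ x ≤ -a - 1) ∨
    (y ≤ -a - 1 ∧ -a - 1 - y < T * (2 * a + 1) ∧ -a ≤ x ∧ x ≤ a ∧ T * (x + a) + T ≤ -a - 1 - y)
  then 1 else 0
def eS (x y : ℤ) : ℕ :=
  if (-a ≤ x ∧ x ≤ a ∧ -a ≤ y ∧ y ≤ a + 1) ∨
    (x ≤ -a - 2 ∧ -x - 2 - a < T * (2 * a + 1) ∧ x + 2 ≤ y ∧ y ≤ -x - 1) then 1 else 0
def eW (x y : ℤ) : ℕ :=
  if (-a ≤ x ∧ x ≤ a + 1 ∧ -a ≤ y ∧ y ≤ a) ∨
    (a + 1 ≤ y ∧ y - a - 1 < T * (2 * a + 1) ∧ -y ≤ x ∧ x ≤ -a - 1) ∨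
    (a + 1 ≤ y ∧ -a ≤ x ∧ x ≤ a ∧ y - a - 1 < T * (a - x) + T) then 1 else 0

lemma balance (x y : ℤ) (ha : 0 ≤ a) :
    eN T a x (y - 1) + eE T a (x - 1) y + eS T a x (y + 1) + eW T a (x + 1) y ≤
      eN T a x y + eE T a x y + eS T a x y + eW T a x y := by
  have hT : (0 : ℤ) ≤ T := Nat.cast_nonneg T
  unfold eN eE eS eW cl
  rw [show (T : ℤ) * (x - 1 + a) = T * (x + a) - T by ring,
    show (T : ℤ) * (a - (x + 1)) = T * (a - x) - T by ring,
    show (T : ℤ) * (2 * a + 1) = T * (a - x) + T * (x + a) + T by ring]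
  have hx : x ≥ a + 2 ∨ (x = a + 1 ∧ (T : ℤ) * (a - x) = -T ∧ 0 ≤ T * (x + a)) ∨
      (x = a ∧ -a < x ∧ (T : ℤ) * (a - x) = 0 ∧ T ≤ T * (x + a)) ∨
      (-a < x ∧ x < a ∧ T ≤ (T : ℤ) * (a - x) ∧ T ≤ T * (x + a)) ∨
      (x = -a ∧ x < a ∧ T ≤ (T : ℤ) * (a - x) ∧ T * (x + a) = 0) ∨
      (x = -a ∧ x = a ∧ (T : ℤ) * (a - x) = 0 ∧ T * (x + a) = 0) ∨
      (x = -a - 1 ∧ T ≤ (T : ℤ) * (a - x) ∧ T * (x + a) = -T) ∨
      (x ≤ -a - 2 ∧ 0 ≤ (T : ℤ) * (a - x) + T * (x + a) + T) := by
    rcases (by omega : x ≥ a + 2 ∨ x = a + 1 ∨ (x = a ∧ -a < x) ∨ (-a < x ∧ x < a) ∨ (x = -a ∧ x < a) ∨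
      (x = -a ∧ x = a) ∨ x = -a - 1 ∨ x ≤ -a - 2) with g | g | g | g | g | g | g | g
    · exact Or.inl g
    · refine Or.inr (Or.inl ⟨g, by rw [g]; ring, mul_nonneg hT (by omega)⟩)
    · refine Or.inr (Or.inr (Or.inl ⟨g.1, g.2, by rw [g.1]; ring, by nlinarith⟩))
    · refine Or.inr (Or.inr (Or.inr (Or.inl ⟨g.1, g.2, by nlinarith, by nlinarith⟩)))
    · refine Or.inr (Or.inr (Or.inr (Or.inr (Or.inl ⟨g.1, g.2, by nlinarith, by rw [g.1]; ring⟩))))
    · refine Or.inr (Or.inr (Or.inr (Or.inr (Or.inr (Or.inl ⟨g.1, g.2, by rw [g.2]; ring, by rw [g.1]; ring⟩)))))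
    · refine Or.inr (Or.inr (Or.inr (Or.inr (Or.inr (Or.inr (Or.inl ⟨g, by nlinarith, by rw [g]; ring⟩))))))
    · refine Or.inr (Or.inr (Or.inr (Or.inr (Or.inr (Or.inr (Or.inr ⟨g, by nlinarith⟩))))))
  generalize (T : ℤ) * (a - x) = A at *
  generalize (T : ℤ) * (x + a) = B at *
  rcases (by omega : y ≥ a + 2 ∨ y = a + 1 ∨ (-a ≤ y ∧ y ≤ a) ∨ y = -a - 1 ∨ y ≤ -a - 2) with
    h | h | h | h | h <;>
  rcases hx with g | g | g | g | g | g | g | g <;>
  repeat' first | rw [if_pos (by omega)] | rw [if_neg (by omega)] | split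
  all_goals omega

def e (p : P) : Fin 4 → ℕ := ![eN T a p.1 p.2, eE T a p.1 p.2, eS T a p.1 p.2, eW T a p.1 p.2]
def tot (p : P) : ℕ := eN T a p.1 p.2 + eE T a p.1 p.2 + eS T a p.1 p.2 + eW T a p.1 p.2

def sq (p : P) : Prop := -a ≤ p.1 ∧ p.1 ≤ a ∧ -a ≤ p.2 ∧ p.2 ≤ a

lemma e_in (p : P) (h : sq a p) : (∀ d, e T a p d = mult T d) ∧ tot T a p = T + 1 + 3 := by
  obtain ⟨h1, h2, h3, h4⟩ := h
  have a1 : eN T a p.1 p.2 = T + 1 := by unfold eN; rw [if_pos (by omega), if_pos (by omega)]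
  have a2 : eE T a p.1 p.2 = 1 := by unfold eE; rw [if_pos (by omega)]
  have a3 : eS T a p.1 p.2 = 1 := by unfold eS; rw [if_pos (by omega)]
  have a4 : eW T a p.1 p.2 = 1 := by unfold eW; rw [if_pos (by omega)]
  refine ⟨fun d => ?_, by simp only [tot, a1, a2, a3, a4]⟩
  fin_cases d <;> simp [e, mult, a1, a2, a3, a4]

lemma e_out (ha : 0 ≤ a) (p : P) (h : ¬ sq (a + 1 + T * (2 * a + 1)) p) :
    (∀ d, e T a p d = 0) ∧ tot T a p = 0 := by
  have hT : (0 : ℤ) ≤ T := Nat.cast_nonneg T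
  have hH : 0 ≤ (T : ℤ) * (2 * a + 1) := mul_nonneg hT (by omega)
  have hA : p.1 ≤ a → 0 ≤ (T : ℤ) * (a - p.1) := fun h => mul_nonneg hT (by omega)
  have hB : -a ≤ p.1 → 0 ≤ (T : ℤ) * (p.1 + a) := fun h => mul_nonneg hT (by omega)
  have hAB : (T : ℤ) * (2 * a + 1) = T * (a - p.1) + T * (p.1 + a) + T := by ring
  unfold sq at h
  have a1 : eN T a p.1 p.2 = 0 := by
    unfold eN cl
    generalize (T : ℤ) * (a - p.1) = A at *
    generalize (T : ℤ) * (p.1 + a) = B at *
    generalize (T : ℤ) * (2 * a + 1) = H at *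
    repeat' first | rw [if_pos (by omega)] | rw [if_neg (by omega)] | split
    all_goals omega
  have a2 : eE T a p.1 p.2 = 0 := by
    unfold eE
    generalize (T : ℤ) * (p.1 + a) = B at *
    generalize (T : ℤ) * (2 * a + 1) = H at *
    rw [if_neg (by omega)]
  have a3 : eS T a p.1 p.2 = 0 := by
    unfold eS
    generalize (T : ℤ) * (2 * a + 1) = H at *
    rw [if_neg (by omega)]
  have a4 : eW T a p.1 p.2 = 0 := by
    unfold eW
    generalize (T : ℤ) * (a - p.1) = A at *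
    generalize (T : ℤ) * (2 * a + 1) = H at *
    rw [if_neg (by omega)]
  refine ⟨fun d => ?_, by simp only [tot, a1, a2, a3, a4]⟩
  fin_cases d <;> simp [e, a1, a2, a3, a4]

/-- initial rotor for a vertex first used in the round of radius `a` -/
def st (p : P) : Z T :=
  if eS T a p.1 p.2 = 1 then ((T + 2 : ℕ) : Z T) else if eW T a p.1 p.2 = 1 then ((T + 3 : ℕ) : Z T)
  else if eE T a p.1 p.2 = 1 then ((T + 1 : ℕ) : Z T) else 0

lemma pattern (ha : 0 ≤ a) (x y : ℤ) (h : ¬ (-a ≤ x ∧ x ≤ a ∧ -a ≤ y ∧ y ≤ a)) :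
    eN T a x y ≤ T + 1 ∧
    ((eE T a x y = 0 ∧ eS T a x y = 0 ∧ eW T a x y = 0) ∨
    (eN T a x y = 0 ∧ eE T a x y = 1 ∧ eS T a x y = 0 ∧ eW T a x y = 0) ∨
    (eN T a x y = 0 ∧ eE T a x y = 0 ∧ eS T a x y = 1 ∧ eW T a x y = 0) ∨
    (eE T a x y = 0 ∧ eS T a x y = 0 ∧ eW T a x y = 1) ∨
    (eE T a x y = 0 ∧ eS T a x y = 1 ∧ eW T a x y = 1)) := by
  have hT : (0 : ℤ) ≤ T := Nat.cast_nonneg T
  have hA : x ≤ a → 0 ≤ (T : ℤ) * (a - x) := fun h => mul_nonneg hT (by omega)
  have hB : -a ≤ x → 0 ≤ (T : ℤ) * (x + a) := fun h => mul_nonneg hT (by omega)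
  have hAB : (T : ℤ) * (2 * a + 1) = T * (a - x) + T * (x + a) + T := by ring
  have hH : 0 ≤ (T : ℤ) * (2 * a + 1) := mul_nonneg hT (by omega)
  have hA' : x < a → T ≤ (T : ℤ) * (a - x) := fun h => by nlinarith
  have hA0 : x = a → (T : ℤ) * (a - x) = 0 := fun h => by rw [h]; ring
  have hB' : -a < x → T ≤ (T : ℤ) * (x + a) := fun h => by nlinarith
  have hB0 : x = -a → (T : ℤ) * (x + a) = 0 := fun h => by rw [h]; ring
  have hT0 : (T : ℤ) = 0 → (T : ℤ) * (a - x) = 0 ∧ (T : ℤ) * (x + a) = 0 := fun h => by rw [h]; simp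
  unfold eN eE eS eW cl
  generalize (T : ℤ) * (a - x) = A at *
  generalize (T : ℤ) * (x + a) = B at *
  generalize (T : ℤ) * (2 * a + 1) = H at *
  rcases (by omega : y ≥ a + 2 ∨ y = a + 1 ∨ (-a ≤ y ∧ y ≤ a) ∨ y = -a - 1 ∨ y ≤ -a - 2) with
    h' | h' | h' | h' | h' <;>
  rcases (by omega : x ≥ a + 2 ∨ x = a + 1 ∨ (-a ≤ x ∧ x ≤ a) ∨ x = -a - 1 ∨ x ≤ -a - 2) with
    g | g | g | g | g <;>
  repeat' first | rw [if_pos (by omega)] | rw [if_neg (by omega)] | split
  all_goals omega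

lemma K_st (ha : 0 ≤ a) (p : P) (h : ¬ sq a p) (d : Fin 4) :
    K T (st T a p) d (tot T a p) = e T a p d := by
  obtain ⟨h0, h⟩ := pattern T a ha p.1 p.2 h
  rcases h with h | h | h | h | h
  · obtain ⟨h1, h2, h3⟩ := h
    simp only [st, tot, e, h1, h2, h3]
    rw [if_neg (by norm_num), if_neg (by norm_num), if_neg (by norm_num), add_zero, add_zero, add_zero,
      K_N T d h0]
    fin_cases d <;> simp
  · obtain ⟨h1, h2, h3, h4⟩ := h
    simp only [st, tot, e, h1, h2, h3, h4]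
    rw [if_neg (by norm_num), if_neg (by norm_num), if_pos trivial, zero_add, add_zero, add_zero, K_E T d]
    fin_cases d <;> simp
  · obtain ⟨h1, h2, h3, h4⟩ := h
    simp only [st, tot, e, h1, h2, h3, h4]
    rw [if_pos trivial, zero_add, add_zero, zero_add, K_S T d]
    fin_cases d <;> simp
  · obtain ⟨h1, h2, h3⟩ := h
    simp only [st, tot, e, h1, h2, h3]
    rw [if_neg (by norm_num), if_pos trivial, add_zero, add_zero, add_comm (eN T a p.1 p.2) 1, K_WN T d h0]
    fin_cases d <;> simp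
  · obtain ⟨h1, h2, h3⟩ := h
    simp only [st, tot, e, h1, h2, h3]
    rw [if_pos trivial, add_zero, show eN T a p.1 p.2 + 1 + 1 = 1 + (1 + eN T a p.1 p.2) by ring,
      K_SWN T d h0]
    fin_cases d <;> simp

def rad : ℕ → ℤ
  | 0 => 0
  | n + 1 => rad n + 1 + T * (2 * rad n + 1)

lemma rad_ge (n : ℕ) : (n : ℤ) ≤ rad T n := by
  have hT : (0 : ℤ) ≤ T := Nat.cast_nonneg T
  induction n with
  | zero => simp [rad]
  | succ n ih =>
    have : 0 ≤ (T : ℤ) * (2 * rad T n + 1) := mul_nonneg hT (by omega)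
    simp only [rad]; push_cast; omega

lemma rad_nonneg (n : ℕ) : 0 ≤ rad T n := le_trans (by positivity) (rad_ge T n)

lemma sq_succ (n : ℕ) (p : P) (h : sq (rad T n) p) : sq (rad T (n + 1)) p := by
  have h0 := rad_nonneg T n
  have : 0 ≤ (T : ℤ) * (2 * rad T n + 1) := mul_nonneg (Nat.cast_nonneg T) (by omega)
  unfold sq at *; simp only [rad]; omega

lemma sq_mono {m n : ℕ} (hmn : m ≤ n) (p : P) (h : sq (rad T m) p) : sq (rad T n) p := by
  induction hmn with
  | refl => exact h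
  | step _ ih => exact sq_succ T _ _ ih

lemma ex_sq (p : P) : ∃ n, sq (rad T (n + 1)) p := by
  refine ⟨p.1.natAbs + p.2.natAbs, sq_succ T _ _ ?_⟩
  have := rad_ge T (p.1.natAbs + p.2.natAbs)
  unfold sq; omega

open Classical in
/-- the recurrent configuration -/
noncomputable def r0 (p : P) : Z T := st T (rad T (Nat.find (ex_sq T p))) p

/-- candidate odometer after n rounds -/
def u (p : P) : ℕ → ℕ
  | 0 => 0
  | n + 1 => u p n + tot T (rad T n) p

def w (p : P) (d : Fin 4) : ℕ → ℕ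
  | 0 => 0
  | n + 1 => w p d n + e T (rad T n) p d

lemma u_out (p : P) (n : ℕ) (h : ¬ sq (rad T n) p) : u T p n = 0 ∧ ∀ d, w T p d n = 0 := by
  induction n with
  | zero => exact ⟨rfl, fun _ => rfl⟩
  | succ n ih =>
    have h1 := ih (fun h' => h (sq_succ T n p h'))
    have h2 := e_out T (rad T n) (rad_nonneg T n) p h
    exact ⟨by simp [u, h1.1, h2.2], fun d => by simp [w, h1.2 d, h2.1 d]⟩

lemma K_u (p : P) (d : Fin 4) (n : ℕ) : K T (r0 T p) d (u T p n) = w T p d n := by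
  classical
  induction n with
  | zero => rfl
  | succ n ih =>
    by_cases h : sq (rad T n) p
    · have := e_in T _ _ h
      simp only [u, w, this.1 d, this.2, K_period, ih]
    · have h0 := u_out T p n h
      simp only [u, w, h0.1, h0.2 d, zero_add]
      by_cases h' : sq (rad T (n + 1)) p
      · have hf : Nat.find (ex_sq T p) = n := by
          rw [Nat.find_eq_iff]
          exact ⟨h', fun m hm hm' => h (sq_mono T (by omega) p hm')⟩
        unfold r0
        rw [hf]
        exact K_st T _ (rad_nonneg T n) p h d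
      · have h2 := e_out T (rad T n) (rad_nonneg T n) p h'
        rw [h2.1 d, h2.2]; rfl

/-- inflow at x for an odometer v -/
noncomputable def inflow (v : P → ℕ) (x : P) : ℕ :=
  ∑ d : Fin 4, K T (r0 T (x - vec d)) d (v (x - vec d))

lemma inflow_mono (v v' : P → ℕ) (h : ∀ p, v p ≤ v' p) (x : P) : inflow T v x ≤ inflow T v' x :=
  Finset.sum_le_sum fun _ _ => K_mono _ _ _ (h _)

lemma super (n : ℕ) (x : P) : inflow T (fun p => u T p n) x ≤ u T x n := by
  unfold inflow
  simp only [K_u]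
  induction n with
  | zero => simp [w]
  | succ n ih =>
    simp only [w, u, Finset.sum_add_distrib]
    refine add_le_add ih ?_
    have := balance T (rad T n) x.1 x.2 (rad_nonneg T n)
    simp only [Fin.sum_univ_four, e, vec, tot]
    simpa using this

lemma u_zero (n : ℕ) : u T (0, 0) n = (T + 1 + 3) * n := by
  induction n with
  | zero => rfl
  | succ n ih =>
    have h : sq (rad T n) (0, 0) := by
      have := rad_nonneg T n
      unfold sq; simp; omega
    simp only [u, ih, (e_in T _ _ h).2]; ring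

noncomputable def S (t : ℕ) : P × (P → Z T) := (step (T + 1))^[t] ((0, 0), r0 T)

noncomputable def v (t : ℕ) (p : P) : ℕ := ((Finset.range t).filter fun s => (S T s).1 = p).card

lemma v_succ (t : ℕ) (p : P) : v T (t + 1) p = v T t p + if (S T t).1 = p then 1 else 0 := by
  unfold v
  rw [Finset.range_add_one, Finset.filter_insert]
  split_ifs with h
  · rw [Finset.card_insert_of_notMem (by simp)]
  · rfl

lemma S_succ (t : ℕ) : S T (t + 1) = step (T + 1) (S T t) := Function.iterate_succ_apply' _ _ _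

lemma rot (t : ℕ) (p : P) : (S T t).2 p = r0 T p + (v T t p : ℕ) := by
  induction t with
  | zero =>
    have h0 : v T 0 p = 0 := by simp [v]
    rw [h0, Nat.cast_zero, add_zero]; rfl
  | succ t ih =>
    rw [S_succ, v_succ]
    by_cases h : (S T t).1 = p
    · subst h
      simp [step, ih, add_assoc]
    · simp only [step, if_neg h, add_zero]
      rw [Function.update_of_ne (Ne.symm h), ih]

lemma flow (t : ℕ) (x : P) :
    v T t x + (if (S T t).1 = x then 1 else 0) = (if x = (0, 0) then 1 else 0) + inflow T (v T t) x := by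
  induction t with
  | zero =>
    have : inflow T (v T 0) x = 0 := by simp [inflow, v, K]
    rw [this]
    simp [v, S, eq_comm]
  | succ t ih =>
    rw [v_succ, ih, add_assoc]
    congr 1
    set p := (S T t).1 with hp
    set d0 := lab T (r0 T p + (v T t p : ℕ)) with hd0
    have hpos : (S T (t + 1)).1 = p + vec d0 := by
      rw [S_succ]; simp only [step]; rw [dir_eq, rot]
    have key : ∀ d, K T (r0 T (x - vec d)) d (v T (t + 1) (x - vec d)) =
        K T (r0 T (x - vec d)) d (v T t (x - vec d)) + if d = d0 ∧ p + vec d0 = x then 1 else 0 := by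
      intro d
      rw [v_succ, ← hp]
      by_cases h : p = x - vec d
      · rw [if_pos h, ← h, K_succ, ← hd0]
        congr 1
        by_cases h2 : d0 = d
        · rw [if_pos h2, if_pos ⟨h2.symm, by rw [h2, h]; abel⟩]
        · rw [if_neg h2, if_neg (fun h3 => h2 h3.1.symm)]
      · rw [if_neg h, if_neg]
        · rfl
        · rintro ⟨h1, h2⟩
          exact h (by rw [← h2, h1]; abel)
    unfold inflow
    simp only [key, Finset.sum_add_distrib, hpos]
    congr 1
    by_cases h : p + vec d0 = x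
    · simp [h]
    · simp [h]

lemma bounded (n : ℕ) (h : ∀ t, v T t (0, 0) ≤ (T + 1 + 3) * n) (t : ℕ) : ∀ p, v T t p ≤ u T p n := by
  induction t with
  | zero => intro p; simp [v]
  | succ t ih =>
    intro p
    by_cases hp : p = (0, 0)
    · rw [hp, u_zero]; exact h _
    · rw [v_succ, flow, if_neg hp, zero_add]
      exact (inflow_mono T _ _ ih p).trans (super T n p)

lemma recurrent : ¬ Set.Finite {t : ℕ | (S T t).1 = (0, 0)} := by
  intro hf
  set n := hf.toFinset.card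
  have h0 : ∀ t, v T t (0, 0) ≤ (T + 1 + 3) * n := by
    intro t
    have : v T t (0, 0) ≤ n := Finset.card_le_card (by intro s hs; simp at hs ⊢; exact hs.2)
    exact this.trans (Nat.le_mul_of_pos_left _ (by omega))
  have hb := bounded T n h0
  set B : Finset P := Finset.Icc (-rad T n) (rad T n) ×ˢ Finset.Icc (-rad T n) (rad T n)
  have hin : ∀ t, (S T t).1 ∈ B := by
    intro t
    by_contra hc
    have h1 : ¬ sq (rad T n) (S T t).1 := by
      intro h; apply hc
      simp only [B, Finset.mem_product, Finset.mem_Icc]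
      exact ⟨⟨h.1, h.2.1⟩, h.2.2⟩
    have h2 := hb (t + 1) (S T t).1
    rw [v_succ, if_pos rfl, (u_out T _ _ h1).1] at h2
    omega
  have hsum : ∀ t, ∑ p ∈ B, v T t p = t := by
    intro t
    induction t with
    | zero => simp [v]
    | succ t ih => simp only [v_succ, Finset.sum_add_distrib, ih]; simp [hin t]
  have := hsum (∑ p ∈ B, u T p n + 1)
  have h2 : ∑ p ∈ B, v T (∑ p ∈ B, u T p n + 1) p ≤ ∑ p ∈ B, u T p n :=
    Finset.sum_le_sum fun p _ => hb _ p
  omega

/-- number of visits to a vertex is unbounded -/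
lemma infinite_iff (x : P) : {t : ℕ | (S T t).1 = x}.Infinite ↔ ∀ n, ∃ t, n ≤ v T t x := by
  classical
  constructor
  · intro h n
    obtain ⟨F, hF, hc⟩ := h.exists_subset_card_eq n
    refine ⟨F.sup id + 1, ?_⟩
    rw [← hc]
    refine Finset.card_le_card fun s hs => ?_
    simp only [Finset.mem_filter, Finset.mem_range]
    exact ⟨Nat.lt_succ_of_le (Finset.le_sup (f := id) hs), hF hs⟩
  · intro h hf
    obtain ⟨t, ht⟩ := h (hf.toFinset.card + 1)
    have : v T t x ≤ hf.toFinset.card := Finset.card_le_card (by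
      intro s hs; simp at hs ⊢; exact hs.2)
    omega

lemma K_large (s : Z T) (d : Fin 4) (n : ℕ) : n ≤ K T s d (n * (T + 1 + 3)) := by
  induction n with
  | zero => simp
  | succ n ih =>
    rw [Nat.succ_mul, K_period]
    have : 1 ≤ mult T d := by fin_cases d <;> simp [mult]
    omega

lemma spread (x : P) (d : Fin 4) (h : ∀ n, ∃ t, n ≤ v T t x) : ∀ n, ∃ t, n ≤ v T t (x + vec d) := by
  intro n
  obtain ⟨t, ht⟩ := h ((n + 1) * (T + 1 + 3))
  refine ⟨t, ?_⟩
  have h1 := flow T t (x + vec d)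
  have h2 : n + 1 ≤ inflow T (v T t) (x + vec d) := by
    refine le_trans ?_ (Finset.single_le_sum (f := fun d' => K T (r0 T (x + vec d - vec d')) d'
      (v T t (x + vec d - vec d'))) (fun _ _ => Nat.zero_le _) (Finset.mem_univ d))
    simp only [add_sub_cancel_right]
    exact (K_large T _ d _).trans (K_mono T _ _ ht)
  split_ifs at h1 <;> omega

lemma all_vertices (x : P) : ∀ n, ∃ t, n ≤ v T t x := by
  have h0 : ∀ n, ∃ t, n ≤ v T t (0, 0) := (infinite_iff T (0, 0)).1 (recurrent T)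
  have hx : ∀ m : ℤ, ∀ n, ∃ t, n ≤ v T t (m, 0) := by
    intro m
    induction m with
    | zero => exact h0
    | succ m ih => simpa [vec] using spread T _ 1 ih
    | pred m ih => simpa [vec, sub_eq_add_neg] using spread T _ 3 ih
  have hy : ∀ m l : ℤ, ∀ n, ∃ t, n ≤ v T t (m, l) := by
    intro m l
    induction l with
    | zero => exact hx m
    | succ l ih => simpa [vec] using spread T _ 0 ih
    | pred l ih => simpa [vec, sub_eq_add_neg] using spread T _ 2 ih
  exact hy x.1 x.2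

end flux

/-- For every `k ≥ 1` there is an initial configuration `ρ` such that the rotor walk on `ℤ²` from the
origin, with the mechanism `k` times North, then East, South, West, visits every vertex (in particular the
origin) infinitely often. -/
theorem result (k : ℕ) (hk : 1 ≤ k) : ∃ ρ : ℤ × ℤ → ZMod (k + 3), ∀ x : ℤ × ℤ,
    {t : ℕ | ((step k)^[t] ((0, 0), ρ)).1 = x}.Infinite := by
  obtain ⟨T, rfl⟩ : ∃ T, k = T + 1 := ⟨k - 1, by omega⟩
  exact ⟨r0 T, fun x => (infinite_iff T x).2 (all_vertices T x)⟩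

end Pool.Agent.Results.MP_056b6b_pr.EveryDrift
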